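import Pool.Agent.MP_db5b97_nt.H31.SpecT
import Pool.Agent.MP_db5b97_nt.H19.DENS
import Pool.Agent.MP_db5b97_nt.H76.CORE
import Pool.Agent.MP_db5b97_nt.H72.Z

/-! An automorphism of prime power order fixes a prime outside any finite set. -/

namespace Pool.Agent.MP_db5b97_nt.H40

open H85 H31 NumberField IsDedekindDomain Filter Topology

theorem fix_of_pow {P X : Type} [Group P] [MulAction P X] {p n : ℕ} {σ : P} (hσ : σ ^ p ^ n = 1)
    {q : P} (hq : q ∈ Subgroup.zpowers (σ ^ p)) {x : X} (h : q • x = σ • x) : σ • x = x := by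
  obtain ⟨a, rfl⟩ := Subgroup.mem_zpowers_iff.1 hq
  have h1 : σ ^ (1 - (p : ℤ) * a) ∈ MulAction.stabilizer P x := by
    rw [MulAction.mem_stabilizer_iff, sub_eq_neg_add, zpow_add, zpow_one, mul_smul, ← h, zpow_neg,
      zpow_mul, zpow_natCast, inv_smul_smul]
  have h2 : IsCoprime (1 - (p : ℤ) * a) ((p : ℤ) ^ n) :=
    IsCoprime.pow_right ⟨1, a, by ring⟩
  obtain ⟨u, v, huv⟩ := h2
  have h3 : σ = (σ ^ (1 - (p : ℤ) * a)) ^ u := by
    have h4 : σ ^ ((p : ℤ) ^ n) = 1 := by exact_mod_cast hσ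
    calc σ = σ ^ (u * (1 - (p : ℤ) * a) + v * (p : ℤ) ^ n) := by rw [huv, zpow_one]
      _ = _ := by rw [zpow_add, mul_comm u, mul_comm v, zpow_mul, zpow_mul, h4, one_zpow, mul_one]
  have h5 := Subgroup.zpow_mem _ h1 u
  rw [← h3] at h5
  exact h5

theorem pr_nonempty (E : Type) [Field E] [NumberField E] {l : ℕ} (hl : l ≠ 0) :
    Nonempty (Pr E l) := by
  by_contra h
  rw [not_nonempty_iff] at h
  obtain ⟨C, hC⟩ := H19.PS_univ E l H72.rowZ hl
  refine H19.not_bdd C (hC.mono fun s hs => ?_)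
  have : H19.PS (Set.univ : Set (Pr E l)) s = 0 := by
    rw [H19.PS]
    exact tsum_empty
  linarith [hs.1]

/-- an automorphism of prime order fixes a prime -/
theorem prime_fix {p l : ℕ} (hp : p.Prime) (hl : l ≠ 0) (k K G : Type) [Field k] [NumberField k]
    [Field K] [NumberField K] [Algebra k K] [Group G] [MulSemiringAction G K]
    [IsGaloisGroup G k K] (hG : Nat.card G = p) (τ : G) : ∃ w : Pr K l, τ • w = w := by
  by_contra! h
  obtain ⟨C, hC⟩ := H19.PS_univ k l H72.rowZ hl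
  obtain ⟨C', hC'⟩ := H19.PS_univ K l H72.rowZ hl
  refine H19.not_bdd (2 * C + C') ?_
  filter_upwards [hC, hC', self_mem_nhdsWithin] with s g1 g2 (hs : 1 < s)
  have a1 := H19.split k H72.rowZ hp hG τ (Set.univ : Set (Pr k l)) (fun w _ => h w) hs
  have hp2 : (2 : ℝ) ≤ p := by exact_mod_cast hp.two_le
  have a2 := mul_le_mul_of_nonneg_right hp2 (H19.PS_nonneg (Set.univ : Set (Pr k l)) s)
  linarith [g1.1, g2.2]

theorem core {p n l : ℕ} (hp : p.Prime) (hl : l ≠ 0) (E P : Type) [Field E] [NumberField E]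
    [Group P] [Finite P] [MulSemiringAction P E] [FaithfulSMul P E] (σ : P)
    (hσ : σ ^ p ^ n = 1) : ∃ W : Pr E l, σ • W = W := by
  set Q : Subgroup P := Subgroup.zpowers (σ ^ p) with hQ
  by_cases hm : σ ∈ Q
  · obtain ⟨W⟩ := pr_nonempty E hl
    refine ⟨W, ?_⟩
    have h1 : σ • (1 : P) = 1 := by
      have h2 : σ * σ ∈ Q := Q.mul_mem hm hm
      have h3 : σ • σ = σ := by
        have := fix_of_pow (X := P) hσ (q := σ) hm (x := σ) rfl
        exact this
      have h4 : σ * σ = σ := h3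
      simpa using h4
    have h5 : σ = 1 := by simpa using h1
    rw [h5, one_smul]
  obtain ⟨K, _, _, _, hK⟩ := H76.exists_fix E Q
  obtain ⟨k, _, _, _, hk⟩ := H76.exists_fix E ↥(Q ⊔ Subgroup.zpowers σ)
  obtain ⟨ψ, hψ⟩ := H76.exists_lift (G := Q) (K := K) (algebraMap k E) fun s a =>
    H76.smul_alg (⟨s.1, Subgroup.mem_sup_left s.2⟩ : ↥(Q ⊔ Subgroup.zpowers σ)) a
  letI : Algebra k K := ψ.toAlgebra
  haveI : IsScalarTower k K E := IsScalarTower.of_algebraMap_eq fun x => (hψ x).symm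
  have hn : σ ∈ Subgroup.normalizer (Q : Set P) := by
    rw [Subgroup.mem_normalizer_iff]
    have hc : ∀ h ∈ Q, σ * h = h * σ := fun h hh => by
      obtain ⟨a, rfl⟩ := Subgroup.mem_zpowers_iff.1 hh
      exact (((Commute.refl σ).pow_right p).zpow_right a).eq
    intro h
    constructor
    · intro hh
      rwa [hc h hh, mul_inv_cancel_right]
    · intro hh
      have h1 := hc _ hh
      rw [inv_mul_cancel_right] at h1
      have h2 := mul_left_cancel h1
      rwa [h2] at hh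
  obtain ⟨τ, hτ, -, hc, hG⟩ := H76.exists_tau Q σ k K E hp hn (Subgroup.mem_zpowers _) hm
  obtain ⟨w, hw⟩ := prime_fix hp hl k K (Subgroup.zpowers τ) hc ⟨τ, Subgroup.mem_zpowers τ⟩
  obtain ⟨W, rfl⟩ := H19.exists_over K (E := E) w
  have h1 : (σ • W).und K = W.und K := by
    rw [H19.und_smul' (σ := (⟨τ, Subgroup.mem_zpowers τ⟩ : Subgroup.zpowers τ)) hτ W, hw]
  obtain ⟨q, hq⟩ := H19.exists_smul K (G := Q) h1.symm
  exact ⟨W, fix_of_pow hσ q.2 hq⟩

theorem rowINERT : RowINERT := by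
  intro p a b l E G Λ _ _ _ _ _ _ g s hp hl hg hs hc
  let γ1 : E ≃ₐ[ℚ] E :=
    AlgEquiv.ofRingEquiv (f := MulSemiringAction.toRingEquiv G E g) fun x => by simp
  let γ2 : E ≃ₐ[ℚ] E :=
    AlgEquiv.ofRingEquiv (f := MulSemiringAction.toRingEquiv Λ E s) fun x => by simp
  have e1 : ∀ x, γ1 x = g • x := fun _ => rfl
  have e2 : ∀ x, γ2 x = s • x := fun _ => rfl
  have p1 : ∀ (i : ℕ) x, (γ1 ^ i) x = g ^ i • x := fun i => by
    induction i with
    | zero => simp
    | succ i ih => intro x; rw [pow_succ', pow_succ', AlgEquiv.mul_apply, e1, ih, mul_smul]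
  have p2 : ∀ (i : ℕ) x, (γ2 ^ i) x = s ^ i • x := fun i => by
    induction i with
    | zero => simp
    | succ i ih => intro x; rw [pow_succ', pow_succ', AlgEquiv.mul_apply, e2, ih, mul_smul]
  have o1 : γ1 ^ p ^ a = 1 := AlgEquiv.ext fun x => by rw [p1, hg, one_smul]; rfl
  have o2 : γ2 ^ p ^ b = 1 := AlgEquiv.ext fun x => by rw [p2, hs, one_smul]; rfl
  have hcm : Commute γ1 γ2 := AlgEquiv.ext fun x => hc x
  have o3 : (γ1 * γ2) ^ p ^ (a + b) = 1 := by
    rw [hcm.mul_pow, pow_add, pow_mul, o1, one_pow, mul_comm, pow_mul, o2, one_pow, mul_one]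
  obtain ⟨W, hW⟩ := core hp hl E (E ≃ₐ[ℚ] E) (γ1 * γ2) o3
  refine ⟨W, ?_⟩
  rw [mul_smul] at hW
  have t1 : ∀ V : Pr E l, γ1 • V = g • V := fun V => by
    refine Subtype.ext (HeightOneSpectrum.ext (Ideal.ext fun x => ?_))
    exact (mem_smul_iff γ1 V.1 x).trans (mem_smul_iff g V.1 x).symm
  have t2 : ∀ V : Pr E l, γ2 • V = s • V := fun V => by
    refine Subtype.ext (HeightOneSpectrum.ext (Ideal.ext fun x => ?_))
    exact (mem_smul_iff γ2 V.1 x).trans (mem_smul_iff s V.1 x).symm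
  rwa [t1, t2] at hW

end Pool.Agent.MP_db5b97_nt.H40
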